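import Mathlib
import Pool.Agent.Helper87.CA.Goals

/-!
# Packet CA-STEP: the parameters of a level
-/

set_option autoImplicit false

namespace Pool.Agent.Helper34.CA

open Pool.Agent.Helper87.CA

theorem gSTEP : G_STEP := by
  refine ⟨(3200 ^ 15) ^ 5, ?_⟩
  intro n hn i hi p k u hp hk hu
  have hnR : (((3200 : ℝ) ^ 15) ^ 5) ≤ (n : ℝ) := by
    have := (Nat.cast_le (α := ℝ)).2 hn
    rw [Nat.cast_pow, Nat.cast_pow] at this
    exact this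
  have hn0 : (0 : ℝ) < n := lt_of_lt_of_le (by positivity) hnR
  obtain ⟨z, hz⟩ : ∃ z : ℝ, z = (n : ℝ) ^ (1 / 5 : ℝ) := ⟨_, rfl⟩
  have hz0 : 0 < z := by rw [hz]; exact Real.rpow_pos_of_pos hn0 _
  have hz5 : z ^ 5 = n := by
    rw [hz, ← Real.rpow_natCast, ← Real.rpow_mul hn0.le]
    norm_num
  have hzZ : (3200 : ℝ) ^ 15 ≤ z := by
    have h1 : (((3200 : ℝ) ^ 15) ^ 5) ≤ z ^ 5 := by rw [hz5]; exact hnR
    exact (pow_le_pow_iff_left₀ (by positivity) hz0.le (by norm_num)).1 h1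
  have hz1 : 1 ≤ z := le_trans (by norm_num) hzZ
  have hz11 : (10 : ℝ) ^ 11 ≤ z := le_trans (by norm_num) hzZ
  obtain ⟨L, hL⟩ : ∃ L : ℝ, L = Real.log n := ⟨_, rfl⟩
  have hL1 : 1 ≤ L := by
    rw [hL, Real.le_log_iff_exp_le hn0]
    refine le_trans Real.exp_one_lt_d9.le (le_trans ?_ hnR)
    norm_num
  have hLz : L ≤ 5 * z := by
    rw [hL, ← hz5, Real.log_pow]
    push_cast
    have := Real.log_le_self hz0.le
    linarith
  have hL0 : 0 < L := by linarith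
  -- the level
  obtain ⟨x, hx⟩ : ∃ x : ℝ, x = (2 : ℝ) ^ i := ⟨_, rfl⟩
  have hx1 : 1 ≤ x := by rw [hx]; exact one_le_pow₀ (by norm_num)
  have hxz : x < z := by
    have h := Nat.find_min (p := fun I => (n : ℝ) ^ (1 / 5 : ℝ) ≤ 2 ^ I) _ hi
    rw [not_le] at h
    rw [hx, hz]
    exact h
  obtain ⟨s, hs⟩ : ∃ s : ℝ, s = (4 / 3 : ℝ) ^ i := ⟨_, rfl⟩
  have hs1 : 1 ≤ s := by rw [hs]; exact one_le_pow₀ (by norm_num)
  have hsx : s ^ 2 ≤ x := by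
    rw [hs, hx, ← pow_mul, mul_comm, pow_mul]
    exact pow_le_pow_left₀ (by norm_num) (by norm_num) i
  have hs4 : x ^ 2 ≤ s ^ 5 := by
    rw [hs, hx, ← pow_mul, ← pow_mul, mul_comm i 2, mul_comm i 5, pow_mul, pow_mul]
    exact pow_le_pow_left₀ (by norm_num) (by norm_num) i
  have hs8 : x ^ 2 ≤ s ^ 5 := hs4
  have hsx3 : x ^ 5 ≤ s ^ 5 * x ^ 3 := by nlinarith [pow_pos (lt_of_lt_of_le one_pos hx1) 3]
  obtain ⟨q, hq⟩ : ∃ q : ℝ, q = 2 * 10 ^ 10 * L / n := ⟨_, rfl⟩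
  have hq0 : 0 < q := by rw [hq]; positivity
  have hqn : q * n = 2 * 10 ^ 10 * L := by rw [hq]; field_simp
  have hp' : p = q ^ (1 / 5 : ℝ) * s := by rw [hp, hq, hs, hL]
  have hp5 : p ^ 5 = q * s ^ 5 := by
    rw [hp', mul_pow, ← Real.rpow_natCast (q ^ (1 / 5 : ℝ)), ← Real.rpow_mul hq0.le]
    norm_num
  have hp0 : 0 < p := by
    rw [hp']
    have := Real.rpow_pos_of_pos hq0 (1 / 5 : ℝ)
    positivity
  -- p is at most one
  have hp1 : p ≤ 1 := by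
    have h10 : (p ^ 5) ^ 2 ≤ 1 := by
      have e1 : (p ^ 5) ^ 2 * z ^ 10 = (2 * 10 ^ 10 * L) ^ 2 * (s ^ 2) ^ 5 := by
        rw [hp5, ← hqn, ← hz5]
        ring
      have e2 : (s ^ 2) ^ 5 ≤ z ^ 5 := pow_le_pow_left₀ (by positivity) (le_trans hsx hxz.le) 5
      have e3 : (2 * 10 ^ 10 * L) ^ 2 ≤ z ^ 4 := by
        have : 2 * 10 ^ 10 * L ≤ z ^ 2 := by nlinarith
        calc (2 * 10 ^ 10 * L) ^ 2 ≤ (z ^ 2) ^ 2 := pow_le_pow_left₀ (by positivity) this 2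
          _ = z ^ 4 := by ring
      have e4 : (p ^ 5) ^ 2 * z ^ 10 ≤ 1 * z ^ 10 := by
        rw [e1]
        calc (2 * 10 ^ 10 * L) ^ 2 * (s ^ 2) ^ 5 ≤ z ^ 4 * z ^ 5 :=
              mul_le_mul e3 e2 (by positivity) (by positivity)
          _ = z ^ 9 * 1 := by ring
          _ ≤ z ^ 9 * z := by gcongr
          _ = 1 * z ^ 10 := by ring
      exact le_of_mul_le_mul_right e4 (by positivity)
    have h10' : p ^ 10 ≤ 1 := by
      calc p ^ 10 = (p ^ 5) ^ 2 := by ring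
        _ ≤ 1 := h10
    by_contra hcon
    rw [not_le] at hcon
    have : 1 < p ^ 10 := one_lt_pow₀ hcon (by norm_num)
    linarith
  obtain ⟨w, hw⟩ : ∃ w : ℝ, w = p * k := ⟨_, rfl⟩
  have hkx : k * x = n := by rw [hk, hx]; field_simp
  have hx0 : 0 < x := by linarith
  have hk0 : 0 < k := by
    rw [hk]; positivity
  have hw0 : 0 < w := by rw [hw]; positivity
  -- w ^ 5 * x ^ 3 ≥ 2 * 10^10 L n^4 : here we need s ^ 5 * 8 ^ i ≥ 32 ^ i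
  have hw5 : w ^ 5 * x ^ 5 = 2 * 10 ^ 10 * L * s ^ 5 * (n : ℝ) ^ 4 := by
    have : w ^ 5 * x ^ 5 = p ^ 5 * (k * x) ^ 5 := by rw [hw]; ring
    rw [this, hkx, hp5, ← hqn]
    ring
  have hw5' : 2 * 10 ^ 10 * L * (n : ℝ) ^ 4 ≤ w ^ 5 * x ^ 3 := by
    have h1 : 2 * 10 ^ 10 * L * (n : ℝ) ^ 4 * x ^ 2 ≤ (w ^ 5 * x ^ 3) * x ^ 2 := by
      calc 2 * 10 ^ 10 * L * (n : ℝ) ^ 4 * x ^ 2 ≤ 2 * 10 ^ 10 * L * (n : ℝ) ^ 4 * s ^ 5 := by
            gcongr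
        _ = w ^ 5 * x ^ 5 := by rw [hw5]; ring
        _ = (w ^ 5 * x ^ 3) * x ^ 2 := by ring
    exact le_of_mul_le_mul_right h1 (by positivity)
  -- w ^ 3 ≥ 3200 ^ 3 n ^ 2
  have hw3 : (3200 : ℝ) ^ 3 * (n : ℝ) ^ 2 ≤ w ^ 3 := by
    have h15 : ((3200 : ℝ) ^ 3 * (n : ℝ) ^ 2) ^ 5 ≤ (w ^ 3) ^ 5 := by
      have h1 : ((3200 : ℝ) ^ 3 * (n : ℝ) ^ 2) ^ 5 * x ^ 9 ≤ (w ^ 3) ^ 5 * x ^ 9 := by
        have h2 : (2 * 10 ^ 10 * L * (n : ℝ) ^ 4) ^ 3 ≤ (w ^ 5 * x ^ 3) ^ 3 :=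
          pow_le_pow_left₀ (by positivity) hw5' 3
        have h3 : (w ^ 5 * x ^ 3) ^ 3 = (w ^ 3) ^ 5 * x ^ 9 := by ring
        rw [h3] at h2
        refine le_trans ?_ h2
        have h4 : (n : ℝ) ^ 12 ≤ (2 * 10 ^ 10 * L * (n : ℝ) ^ 4) ^ 3 := by
          have : (1 : ℝ) ≤ 2 * 10 ^ 10 * L := by linarith
          calc (n : ℝ) ^ 12 = 1 ^ 3 * ((n : ℝ) ^ 4) ^ 3 := by ring
            _ ≤ (2 * 10 ^ 10 * L) ^ 3 * ((n : ℝ) ^ 4) ^ 3 := by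
                gcongr
            _ = (2 * 10 ^ 10 * L * (n : ℝ) ^ 4) ^ 3 := by ring
        refine le_trans ?_ h4
        have h5 : (3200 : ℝ) ^ 15 * x ^ 9 ≤ (n : ℝ) ^ 2 := by
          rw [← hz5]
          calc (3200 : ℝ) ^ 15 * x ^ 9 ≤ z * z ^ 9 := by
                gcongr
            _ = (z ^ 5) ^ 2 := by ring
        calc ((3200 : ℝ) ^ 3 * (n : ℝ) ^ 2) ^ 5 * x ^ 9
            = (n : ℝ) ^ 10 * ((3200 : ℝ) ^ 15 * x ^ 9) := by ring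
          _ ≤ (n : ℝ) ^ 10 * (n : ℝ) ^ 2 := by gcongr
          _ = (n : ℝ) ^ 12 := by ring
      exact le_of_mul_le_mul_right h1 (by positivity)
    exact (pow_le_pow_iff_left₀ (by positivity) (by positivity) (by norm_num)).1 h15
  have hn1 : (1 : ℝ) ≤ n := le_trans (by norm_num) hnR
  have hw3200 : 3200 ≤ w := by
    have h1 : (3200 : ℝ) ^ 3 ≤ w ^ 3 := by
      refine le_trans ?_ hw3
      have : (1 : ℝ) ≤ (n : ℝ) ^ 2 := one_le_pow₀ hn1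
      nlinarith
    exact (pow_le_pow_iff_left₀ (by positivity) (by positivity) (by norm_num)).1 h1
  -- bounds for u
  have hu' : u = ⌊w / 1600⌋₊ := by rw [hu, hw]
  have hule : (u : ℝ) ≤ w / 1600 := by
    rw [hu']; exact Nat.floor_le (by positivity)
  have huge : w / 3200 ≤ (u : ℝ) := by
    have h1 : w / 1600 < (u : ℝ) + 1 := by
      rw [hu']; exact Nat.lt_floor_add_one _
    linarith
  have hwn : w ≤ n := by
    rw [hw, ← hkx]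
    calc p * k ≤ 1 * k := by gcongr
      _ = k * 1 := by ring
      _ ≤ k * x := by gcongr
  have hu0 : (0 : ℝ) < u := by linarith
  have hu3 : (n : ℝ) ^ 2 ≤ (u : ℝ) ^ 3 := by
    have h1 : (w / 3200) ^ 3 ≤ (u : ℝ) ^ 3 := pow_le_pow_left₀ (by positivity) huge 3
    have h2 : (n : ℝ) ^ 2 ≤ (w / 3200) ^ 3 := by
      rw [div_pow, le_div_iff₀ (by positivity)]
      linarith
    linarith
  refine ⟨hp0, hp1, ?_, ?_, ?_, ?_⟩
  · have : (0 : ℝ) < ((u : ℕ) : ℝ) := hu0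
    exact Nat.one_le_iff_ne_zero.2 (by rintro rfl; simp at this)
  · have : (u : ℝ) ≤ n := by linarith
    exact_mod_cast this
  · -- 32 * (52 L / p^3) ≤ u^2 / n
    rw [← hL]
    have h1 : p ^ 5 * k ^ 2 * x ^ 2 = 2 * 10 ^ 10 * L * (n : ℝ) * s ^ 5 := by
      have : p ^ 5 * k ^ 2 * x ^ 2 = p ^ 5 * (k * x) ^ 2 := by ring
      rw [this, hkx, hp5, ← hqn]
      ring
    have h2 : 2 * 10 ^ 10 * L * (n : ℝ) ≤ p ^ 5 * k ^ 2 := by
      have : 2 * 10 ^ 10 * L * (n : ℝ) * x ^ 2 ≤ (p ^ 5 * k ^ 2) * x ^ 2 := by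
        rw [h1]
        gcongr
      exact le_of_mul_le_mul_right this (by positivity)
    have h3 : p ^ 5 * k ^ 2 = p ^ 3 * w ^ 2 := by rw [hw]; ring
    rw [h3] at h2
    have h4 : w ^ 2 ≤ 3200 ^ 2 * (u : ℝ) ^ 2 := by
      have : w ≤ 3200 * (u : ℝ) := by linarith
      calc w ^ 2 ≤ (3200 * (u : ℝ)) ^ 2 := pow_le_pow_left₀ hw0.le this 2
        _ = 3200 ^ 2 * (u : ℝ) ^ 2 := by ring
    rw [le_div_iff₀ hn0]
    have h5 : 32 * (52 * L / p ^ 3) * (n : ℝ) = (1664 * L * n) / p ^ 3 := by ring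
    rw [h5, div_le_iff₀ (by positivity)]
    have h6 : p ^ 3 * w ^ 2 ≤ p ^ 3 * (3200 ^ 2 * (u : ℝ) ^ 2) := by gcongr
    have h7 : 0 < L * (n : ℝ) := by positivity
    nlinarith
  · -- the last condition
    have h1 : (n : ℝ) ^ 2 / (u : ℝ) ^ 2 ≤ u := by
      rw [div_le_iff₀ (by positivity)]
      calc (n : ℝ) ^ 2 ≤ (u : ℝ) ^ 3 := hu3
        _ = (u : ℝ) * (u : ℝ) ^ 2 := by ring
    have h2 : p * (k / 2) = w / 2 := by rw [hw]; ring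
    rw [h2]
    linarith

end Pool.Agent.Helper34.CA
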